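import Pool.Agent.H.MP_8c536d_lc.Defs
import Pool.Agent.Lib.helper26.CXFpt
import Pool.Agent.Lib.helper25.RelGr

set_option autoImplicit false

namespace Pool.Agent.H.MP_8c536d_lc

open Pool.Agent.Lib.CX Finset

theorem prepad {α : Type} [Enc α] {A : α × List Unit → Prop} {κ M : α → ℕ} (hM : PT M) {f : ℕ → ℕ} (hf : Computable f)
    (hb : ∀ a, M a ≤ f (κ a)) (h : FPT A fun z => κ z.1) : FPT (fun a => A (a, List.replicate (M a) ())) κ := by
  obtain ⟨p, F, q, hF, h⟩ := h
  have key : ∀ (a : α) (j : ℕ), (fun s : α × List Unit => (s.1, () :: s.2))^[j] (a, []) =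
      (a, List.replicate j ()) := fun a j => by
    induction j with
    | zero => rfl
    | succ j ih => rw [Function.iterate_succ_apply', ih]; rfl
  obtain ⟨p0, r, hr⟩ := loopT (g := fun s : α × List Unit => (s.1, () :: s.2)) (c := fun s => decide (s.2.length < M s.1))
    (i := fun a => (a, [])) (o := fun s => s) (by fun_prop) (by fun_prop) (by fun_prop) PT.id
  obtain ⟨d, hd⟩ := eval_mul_le (r + q + 1)
  refine ⟨.seq p0 p, fun k => (F k + 1) * (f k + 1) ^ d, (r + q + 1).comp (Polynomial.X + 3), Primrec.nat_mul.to_comp.comp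
    (Computable.succ.comp hF) (computable_pow (Computable.succ.comp hf) d), fun a => ?_⟩
  have := hb a
  have sz : ∀ j ≤ M a, size (a, List.replicate j ()) ≤ (f (κ a) + 1) * (size a + 3) := fun j hj => by
    have := size_list_le (l := List.replicate j ()) (B := 2) (by simp)
    rw [size_pair]; simp at this; nlinarith
  obtain ⟨n, hn, m, e⟩ := hr a ((f (κ a) + 1) * (size a + 3)) (M a) (by nlinarith) (by nlinarith)
    (fun j hj => by simp [key, hj]) (by simp [key]) fun j hj => by rw [key]; exact sz j hj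
  obtain ⟨b, n', m', h1, h2, h3⟩ := h (a, List.replicate (M a) ())
  rw [key, ← io_eq, ← io_eq] at e
  refine ⟨b, _, max m m', ?_, .seq (e.mono (le_max_left _ _)) (h2.mono (le_max_right _ _)), h3⟩
  have c1 := hd (f (κ a) + 1) (size a + 3) (by omega)
  have c2 := Nat.mul_le_mul_left (F (κ a)) (eval_mono q (sz _ le_rfl))
  simp only [Polynomial.eval_comp, Polynomial.eval_add, Polynomial.eval_X, Polynomial.eval_one, Polynomial.eval_ofNat] at *
  rw [mul_assoc]
  nlinarith [Nat.mul_le_mul_left (F (κ a)) c1]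

theorem Approx.fpt {ε : ℚ} (h : Approx ε) : ∃ A : Gr × ℕ → Prop, FPT A (·.2) ∧ ∀ a,
    ((∃ S, Bis a.1 S ∧ S.card ≤ a.2) → A a) ∧ (A a → ∃ S, Bis a.1 S ∧ (S.card : ℚ) ≤ (1 + ε) * a.2) := by
  obtain ⟨p, f, q, hf, h⟩ := h
  choose o n m h1 h2 h3 using h
  obtain ⟨p', r, h'⟩ := PT.isSome (PT.id (α := Option (List ℕ)))
  obtain ⟨d, hd⟩ := eval_mul_le (r + Polynomial.X + 1)
  refine ⟨fun a => (o a).isSome, ⟨.seq p p', fun k => (f k + 1) ^ d, (r + Polynomial.X + 1).comp (Polynomial.X + q),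
    computable_pow (Computable.succ.comp hf) d, fun a => ?_⟩, fun a => ?_⟩
  · obtain ⟨n', m', b, e⟩ := h' (o a)
    refine ⟨_, _, max (m a) m', ?_, .seq ((h2 a).mono (le_max_left _ _)) (e.mono (le_max_right _ _)), Iff.rfl⟩
    have c0 : size (o a) ≤ size a + n a := R.len (p := p) ⟨n a, le_rfl, m a, by simpa [io_eq] using h2 a⟩
    have c1 := hd (f a.2 + 1) (size a + q.eval (size a)) (by omega)
    have c2 := h1 a
    have c3 := eval_mono r (show size (o a) ≤ (f a.2 + 1) * (size a + q.eval (size a)) by nlinarith)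
    simp only [Polynomial.eval_comp, Polynomial.eval_add, Polynomial.eval_X, Polynomial.eval_one] at *
    nlinarith
  · have := h3 a
    cases e : o a <;> rw [e] at this
    · exact ⟨fun ⟨S, a, b⟩ => ((this S a).not_ge b).elim, by simp [e]⟩
    · exact ⟨by simp [e], fun _ => ⟨_, this⟩⟩

theorem Scheme.approx (h : Scheme) {ε : ℚ} (h0 : 0 < ε) : Approx ε := by
  obtain ⟨p, f, q, hf, h⟩ := h
  obtain ⟨p', r, h'⟩ := show PT fun a : Gr × ℕ => (a, ε) by fun_prop
  refine ⟨.seq p' p, fun k => f (k, ε) + 1, r + q + 1,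
    Computable.succ.comp (hf.comp (Computable.id.pair (Computable.const _))), fun a => ?_⟩
  obtain ⟨o, n, m, h1, h2, h3⟩ := h a ε h0
  obtain ⟨n', m', b, e⟩ := h' a
  refine ⟨o, _, max m' m, ?_, .seq (e.mono (le_max_left _ _)) (h2.mono (le_max_right _ _)), h3⟩
  simp only [Polynomial.eval_add, Polynomial.eval_one]
  nlinarith

variable {P : Type} [DecidableEq P] (ps : List P) (sz : P → ℕ) (att : P → List ℕ) (m : P)

def vs : List (P × ℕ) := ps.flatMap fun p => (List.range (sz p)).map fun c => (p, c)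

def rel (e : (P × ℕ) × P × ℕ) : Bool := decide (e.1.1 = e.2.1 ∨ e.2.1 = m ∧ e.2.2 ∈ att e.1.1)

def gr : Gr := relGr (vs ps sz) (rel att m)

def nm (u : Fin (gr ps sz att m).n) : P × ℕ := relNm _ _ u

theorem nm_range (x : P × ℕ) : (∃ u, nm ps sz att m u = x) ↔ x.1 ∈ ps ∧ x.2 < sz x.1 := by
  refine (relNm_range _ _ x).symm.trans ?_
  simp only [vs, List.mem_flatMap, List.mem_map, List.mem_range]
  exact ⟨by rintro ⟨p, a, c, b, rfl⟩; exact ⟨a, b⟩, fun h => ⟨_, h.1, _, h.2, rfl⟩⟩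

theorem nm_inj : Function.Injective (nm ps sz att m) := relNm_inj _ _

theorem adj (u v) : (gr ps sz att m).G.Adj u v ↔ u ≠ v ∧ ((nm ps sz att m u).1 = (nm ps sz att m v).1 ∨
    ((nm ps sz att m v).1 = m ∧ (nm ps sz att m v).2 ∈ att (nm ps sz att m u).1) ∨
    (nm ps sz att m u).1 = m ∧ (nm ps sz att m u).2 ∈ att (nm ps sz att m v).1) := by
  refine (relGr_adj _ _ u v).trans (and_congr (nm_inj ps sz att m).ne_iff ?_)
  simp only [rel, decide_eq_true_eq, nm]
  tauto

theorem cnt (J : Finset P) (hJ : J ⊆ ps.toFinset) :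
    (univ.filter fun u => (nm ps sz att m u).1 ∈ J).card = ∑ p ∈ J, sz p := by
  rw [card_eq_sum_card_fiberwise (f := fun u => (nm ps sz att m u).1) (t := J) (by simp [Set.MapsTo])]
  refine sum_congr rfl fun p hp => ?_
  rw [← card_range (sz p)]
  refine card_bij (fun u _ => (nm ps sz att m u).2) (fun u hu => ?_) (fun u hu v hv e => nm_inj _ _ _ _ ?_) fun c hc => ?_
  · simpa [← (mem_filter.1 hu).2] using ((nm_range ..).1 ⟨u, rfl⟩).2
  · exact Prod.ext ((mem_filter.1 hu).2.trans (mem_filter.1 hv).2.symm) e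
  · obtain ⟨u, e⟩ := (nm_range ps sz att m (p, c)).2 ⟨List.mem_toFinset.1 (hJ hp), mem_range.1 hc⟩
    exact ⟨u, by simp [e, hp], by rw [e]⟩

theorem comp (hm : m ∈ ps) (J : Finset P) (hJ : J ⊆ ps.toFinset) (n : m ∉ J) (D : Finset ℕ)
    (hD : D ⊆ range (sz m)) (h : ∀ p ∈ J, ∀ c ∈ att p, c ∈ D) (e : ∑ p ∈ J, sz p + D.card = ∑ p ∈ ps.toFinset \ J, sz p) :
    ∃ S, Bis (gr ps sz att m) S ∧ S.card = D.card := by
  set f := nm ps sz att m
  let S := univ.filter fun u => (f u).1 = m ∧ (f u).2 ∈ D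
  have c : S.card = D.card := card_bij (fun u _ => (f u).2) (by simp +contextual [S]) (fun u hu v hv e => nm_inj _ _ _ _
    (Prod.ext ((mem_filter.1 hu).2.1.trans (mem_filter.1 hv).2.1.symm) e)) fun c hc => by
      obtain ⟨u, e⟩ := (nm_range ps sz att m (m, c)).2 ⟨hm, mem_range.1 (hD hc)⟩
      exact ⟨u, by simp [S, f, e, hc], by simp [f, e]⟩
  have r : ∀ u, (f u).1 ∈ ps := fun u => ((nm_range ..).1 ⟨u, rfl⟩).1
  have c2 : ((univ.filter fun u => (f u).1 ∈ ps.toFinset \ J) \ S).card = (univ.filter fun u => (f u).1 ∈ J).card := by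
    rw [card_sdiff_of_subset (by simp +contextual [S, subset_iff, n, hm]), cnt _ _ _ _ _ hJ, cnt _ _ _ _ _ sdiff_subset]
    omega
  refine ⟨S, ⟨_, _, ?_, ?_, c2.le.trans (Nat.le_succ _), c2.ge.trans (Nat.le_succ _), fun u hu v hv a => ?_⟩, c⟩
  · simp +contextual [disjoint_left]
  · ext u
    have := r u
    by_cases z : (f u).1 ∈ J <;> simp [z, this, S]
    rintro e; exact (n (e ▸ z)).elim
  · simp only [mem_sdiff, mem_filter, mem_univ, true_and, S, not_and] at hu hv
    obtain e | e | e := ((adj ..).1 a).2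
    · exact hu.1.2 (e ▸ hv)
    · exact n (e.1 ▸ hv)
    · exact hu.2 e.1 (h _ hv _ e.2)

theorem sound {S} (hS : Bis (gr ps sz att m) S) (hm : m ∈ ps) (h1 : ∀ p ∈ ps, S.card < sz p)
    (h2 : ∀ p ∈ ps, ∀ c ∈ att p, c < sz m) : ∃ J ⊆ ps.toFinset, m ∉ J ∧ ∃ D : Finset ℕ, D.card ≤ S.card ∧
    (∀ p ∈ J, ∀ c ∈ att p, c ∈ D) ∧ ∑ p ∈ J, sz p ≤ ∑ p ∈ ps.toFinset \ J, sz p + S.card + 1 ∧
      ∑ p ∈ ps.toFinset \ J, sz p ≤ ∑ p ∈ J, sz p + S.card + 1 := by
  set f := nm ps sz att m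
  have r : ∀ u, (f u).1 ∈ ps := fun u => ((nm_range ..).1 ⟨u, rfl⟩).1
  have sv : ∀ p ∈ ps, ∃ u ∉ S, (f u).1 = p := fun p hp => by
    have := cnt ps sz att m {p} (by simpa)
    rw [sum_singleton] at this
    simpa [and_comm] using exists_mem_notMem_of_card_lt_card ((h1 p hp).trans_eq this.symm)
  obtain ⟨A, B, d, un, c1, c2, hA, u, hu, e⟩ : ∃ A B : Finset _, Disjoint A B ∧ A ∪ B = Sᶜ ∧ A.card ≤ B.card + 1 ∧
      B.card ≤ A.card + 1 ∧ (∀ u ∈ A, ∀ v ∈ B, ¬ (gr ps sz att m).G.Adj u v) ∧ ∃ u ∈ A, (f u).1 = m := by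
    obtain ⟨A, B, d, un, c1, c2, hA⟩ := hS
    obtain ⟨u, hu, e⟩ := sv m hm
    obtain z | z := mem_union.1 (un ▸ mem_compl.2 hu)
    · exact ⟨A, B, d, un, c1, c2, hA, u, z, e⟩
    · exact ⟨B, A, d.symm, union_comm A B ▸ un, c2, c1, fun a ha b hb h => hA b hb a ha h.symm, u, z, e⟩
  have ne : ∀ u ∈ A, ∀ v ∈ B, u ≠ v := fun u a v b e => disjoint_left.1 d a (e ▸ b)
  have sep : ∀ u ∈ A, ∀ v ∈ B, (f u).1 ≠ (f v).1 := fun u a v b e => hA u a v b ((adj ..).2 ⟨ne u a v b, .inl e⟩)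
  have tri : ∀ v, v ∈ S ∨ v ∈ A ∨ v ∈ B := fun v => by rw [← mem_union, un, mem_compl]; exact em _
  have sub : B.image (fun v => (f v).1) ⊆ ps.toFinset := by simp [image_subset_iff, r]
  refine ⟨_, sub, by simpa [← e] using fun v hv => (sep u hu v hv).symm,
    (S.filter fun v => (f v).1 = m).image fun v => (f v).2, card_image_le.trans (card_filter_le _ _), fun p hp c hc => ?_, ?_⟩
  · obtain ⟨v, hv, rfl⟩ := mem_image.1 hp
    obtain ⟨w, hw⟩ := (nm_range ps sz att m (m, c)).2 ⟨hm, h2 _ (r v) c hc⟩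
    obtain z | z | z := tri w
    · exact mem_image.2 ⟨w, by simp [z, f, hw], by simp [f, hw]⟩
    · exact (hA w z v hv ((adj ..).2 ⟨ne w z v hv, .inr (.inr (by simpa [hw]))⟩)).elim
    · exact (sep u hu w z (by simp [e, f, hw])).elim
  rw [← cnt ps sz att m _ sub, ← cnt ps sz att m _ sdiff_subset]
  have a1 := card_le_card (s := A) (t := univ.filter fun u => (f u).1 ∈ ps.toFinset \ B.image fun v => (f v).1)
    fun v hv => by simpa [r] using fun w hw => (sep v hv w hw).symm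
  have a2 := card_le_card (s := B) (t := univ.filter fun u => (f u).1 ∈ B.image fun v => (f v).1)
    fun v hv => mem_filter.2 ⟨mem_univ _, mem_image_of_mem _ hv⟩
  have a3 := (card_le_card (s := univ.filter fun u => (f u).1 ∈ ps.toFinset \ B.image fun v => (f v).1) (t := A ∪ S)
    fun v hv => by
      have := tri v
      have := mt (mem_image_of_mem fun v => (f v).1) (mem_sdiff.1 (mem_filter.1 hv).2).2
      rw [mem_union]; tauto).trans (card_union_le _ _)
  have a4 := (card_le_card (s := univ.filter fun u => (f u).1 ∈ B.image fun v => (f v).1) (t := B ∪ S)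
    fun v hv => by
      obtain ⟨w, hw, e⟩ := mem_image.1 (mem_filter.1 hv).2
      have := tri v
      have := fun z => sep v z w hw e.symm
      rw [mem_union]; tauto).trans (card_union_le _ _)
  simp only [f] at *
  constructor <;> omega

theorem digits {B : ℕ} (hB : 1 < B) (R : ℕ) : ∀ c : ℕ → ℕ, (∀ i < R, c i < B) →
    ∑ i ∈ range R, c i * B ^ i = ∑ i ∈ range R, B ^ i → ∀ i < R, c i = 1 := by
  induction R with
  | zero => simp
  | succ R ih =>
    intro c h e
    simp only [sum_range_succ', pow_succ, ← mul_assoc, ← sum_mul, pow_zero, mul_one] at e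
    have a : c 0 = 1 := by
      have := congrArg (· % B) e
      simpa [Nat.mod_eq_of_lt (h 0 (by omega)), Nat.mod_eq_of_lt hB] using this
    have := ih (fun i => c (i + 1)) (fun i hi => h _ (by omega)) (Nat.eq_of_mul_eq_mul_right (m := B) (by omega) (by omega))
    rintro (_ | i) hi
    exacts [a, this i (by omega)]

end Pool.Agent.H.MP_8c536d_lc
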