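import Pool.Agent.H.MP_8c536d_lc.A

set_option autoImplicit false

namespace Pool.Agent.H.MP_8c536d_lc

open Pool.Agent.Lib.CX Finset

abbrev T3 := ℕ × ℕ × ℕ
abbrev T4 := ℕ × ℕ × ℕ × ℕ
abbrev Pt := ℕ × (T3 × T3) × T4

instance : DecidableEq (T3 × T3) := instDecidableEqProd
instance : DecidableEq ((T3 × T3) × T4) := instDecidableEqProd
instance : DecidableEq Pt := instDecidableEqProd

def prs (k K : ℕ) : List T3 := (List.range k ×ˢ List.range K ×ˢ List.range K).filter fun x =>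
  ∀ l ∈ List.range k, x.2.2.testBit l = (x.2.1.testBit l != decide (l = x.1))
def ts (k K : ℕ) : List (T3 × T3) := prs k K ×ˢ prs k K
def ok (g : Gr) (t : T3 × T3) (x : T4) : Bool :=
  if t.1.1 = t.2.1 then decide (x.1.dist x.2.1 < g.n) else g.adjB (x.1.dist x.2.1) (x.2.2.1.dist x.2.2.2)
def bl (g : Gr) (k K Q : ℕ) : List Pt := ((ts k K ×ˢ List.range Q ×ˢ List.range Q ×ˢ List.range Q ×ˢ List.range Q).filter
  fun y => ok g y.1 y.2).map fun y => (2, y)
def wt (k K P : ℕ) (t : T3 × T3) : ℕ := (2 * K + 1) * min (((2 * K) ^ 4 + 2) ^ (ts k K).idxOf t) P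
def tot (k K P : ℕ) (l : List (T3 × T3)) : ℕ := (l.flatMap fun t => List.range (wt k K P t)).length
def sz (g : Gr) (k K Q P : ℕ) (p : Pt) : ℕ := if p.1 = 0 then K * Q + K + 2 * tot k K P (ts k K) + (2 * K + 1) else
  if p.1 = 1 then K * Q + tot k K P ((bl g k K Q).map (·.2.1)) + (2 * K + 1) else wt k K P p.2.1
def att (Q : ℕ) (p : Pt) : List ℕ := if p.1 = 2 then [p.2.1.1.2.1 * Q + p.2.2.1, p.2.1.1.2.2 * Q + p.2.2.2.1,
  p.2.1.2.2.1 * Q + p.2.2.2.2.1, p.2.1.2.2.2 * Q + p.2.2.2.2.2] else []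
def cst (b : ℕ) : Pt := (b, ((0, 0, 0), 0, 0, 0), 0, 0, 0, 0)
def red (g : Gr) (k K Q P : ℕ) : Gr := gr (cst 0 :: cst 1 :: bl g k K Q) (sz g k K Q P) (att Q) (cst 0)

section
attribute [local irreducible] prs ts ok bl wt tot sz att cst
variable {α : Type} [Enc α] {g : α → Gr} {k K Q P : α → ℕ}
@[fun_prop] theorem pb_ite {c : α → Prop} {i : ∀ a, Decidable (c a)} (h1 : PB k) (h2 : PB K) :
    PB fun a => @ite _ (c a) (i a) (k a) (K a) := (h1.add h2).mono fun a => by split_ifs <;> omega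
@[fun_prop] theorem pt_prs (h1 : PT k) (h2 : PB k) (h3 : PT K) (h4 : PB K) : PT fun a => prs (k a) (K a) := by
  unfold prs; fun_prop
@[fun_prop] theorem pt_ts (h1 : PT k) (h2 : PB k) (h3 : PT K) (h4 : PB K) : PT fun a => ts (k a) (K a) := by
  unfold ts; fun_prop
@[fun_prop] theorem pt_ok {t : α → T3 × T3} {x : α → T4} (h : PT g) (h1 : PT t) (h2 : PT x) :
    PT fun a => ok (g a) (t a) (x a) := by unfold ok Nat.dist; fun_prop
@[fun_prop] theorem pt_bl (h : PT g) (h1 : PT k) (h2 : PB k) (h3 : PT K) (h4 : PB K) (h5 : PT Q) (h6 : PB Q) :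
    PT fun a => bl (g a) (k a) (K a) (Q a) := by unfold bl; fun_prop
@[fun_prop] theorem pt_wt {t : α → T3 × T3} (h1 : PT k) (h2 : PB k) (h3 : PT K) (h4 : PB K) (h5 : PT P) (h6 : PT t) :
    PT fun a => wt (k a) (K a) (P a) (t a) := by unfold wt; fun_prop
@[fun_prop] theorem pb_wt {t : α → T3 × T3} (h4 : PB K) (h5 : PB P) : PB fun a => wt (k a) (K a) (P a) (t a) := by
  unfold wt; exact (((PB.const 2).mul h4).add (PB.const 1)).mul (PB.min_right h5)
theorem pt_tot' {l : α → List (T3 × T3)} (h1 : PT k) (h2 : PB k) (h3 : PT K) (h4 : PB K) (h5 : PT P) (h6 : PB P) (h : PT l) :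
    PT fun a => (l a).flatMap fun t => List.range (wt (k a) (K a) (P a) t) :=
  PT.flatMap (PT.range (by fun_prop) (pb_wt (h4.comp PT.fst') (h6.comp PT.fst'))) h
@[fun_prop] theorem pt_tot {l : α → List (T3 × T3)} (h1 : PT k) (h2 : PB k) (h3 : PT K) (h4 : PB K) (h5 : PT P) (h6 : PB P)
    (h : PT l) : PT fun a => tot (k a) (K a) (P a) (l a) := by unfold tot; exact PT.length (pt_tot' h1 h2 h3 h4 h5 h6 h)
@[fun_prop] theorem pb_tot {l : α → List (T3 × T3)} (h1 : PT k) (h2 : PB k) (h3 : PT K) (h4 : PB K) (h5 : PT P) (h6 : PB P)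
    (h : PT l) : PB fun a => tot (k a) (K a) (P a) (l a) := by unfold tot; exact PB.length (pt_tot' h1 h2 h3 h4 h5 h6 h)
theorem pt_red (h : PT g) (h1 : PT k) (h2 : PB k) (h3 : PT K) (h4 : PB K) (h5 : PT Q) (h6 : PB Q) (h7 : PT P) (h8 : PB P) :
    PT fun a => red (g a) (k a) (K a) (Q a) (P a) := by
  have a : PT fun z : α × Pt => sz (g z.1) (k z.1) (K z.1) (Q z.1) (P z.1) z.2 := by unfold sz; fun_prop
  have b : PB fun z : α × Pt => sz (g z.1) (k z.1) (K z.1) (Q z.1) (P z.1) z.2 := by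
    have := h2.comp (PT.fst' (β := Pt))
    have := h4.comp (PT.fst' (β := Pt))
    have := h6.comp (PT.fst' (β := Pt))
    have := h8.comp (PT.fst' (β := Pt))
    unfold sz; fun_prop
  have c := PT.map (F := fun (z : α × Pt) (c : ℕ) => (z.2, c)) (by fun_prop) (PT.range a b)
  unfold red gr vs
  refine PT.relGr (PT.flatMap c (by fun_prop)) ?_
  unfold rel att; fun_prop
end

end Pool.Agent.H.MP_8c536d_lc
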