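import Pool.Agent.H.MP_8c536d_lc.B

set_option autoImplicit false

namespace Pool.Agent.H.MP_8c536d_lc

open Pool.Agent.Lib.CX Finset

variable {g : Gr} {k K Q P : ℕ}

theorem mem_prs {x : T3} : x ∈ prs k K ↔ (x.1 < k ∧ x.2.1 < K ∧ x.2.2 < K) ∧
    ∀ l < k, x.2.2.testBit l = (x.2.1.testBit l != decide (l = x.1)) := by
  obtain ⟨a, b, c⟩ := x; simp [prs]

theorem mem_ts {t : T3 × T3} : t ∈ ts k K ↔ t.1 ∈ prs k K ∧ t.2 ∈ prs k K := List.pair_mem_product

theorem ts_nd : (ts k K).Nodup := by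
  have : (prs k K).Nodup := (List.nodup_range.product (List.nodup_range.product List.nodup_range)).filter _
  exact this.product this

theorem mem_bl {p : Pt} : p ∈ bl g k K Q ↔ p.1 = 2 ∧ p.2.1 ∈ ts k K ∧
    (p.2.2.1 < Q ∧ p.2.2.2.1 < Q ∧ p.2.2.2.2.1 < Q ∧ p.2.2.2.2.2 < Q) ∧ ok g p.2.1 p.2.2 := by
  obtain ⟨a, t, b, c, d, e⟩ := p
  simp only [bl, List.mem_map, List.mem_filter, Prod.mk.injEq]
  exact ⟨by rintro ⟨_, h, rfl, rfl⟩; simpa [and_assoc] using h, fun h => ⟨_, by simpa [and_assoc] using h.2, h.1.symm, rfl⟩⟩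

theorem sz0 : sz g k K Q P (cst 0) = K * Q + K + 2 * tot k K P (ts k K) + (2 * K + 1) := rfl
theorem sz1 : sz g k K Q P (cst 1) = K * Q + tot k K P ((bl g k K Q).map (·.2.1)) + (2 * K + 1) := rfl

theorem dv (a : ℕ) {b : ℕ} (hb : b < Q) : (a * Q + b) / Q = a := by
  rw [add_comm, Nat.add_mul_div_right _ _ (by omega), Nat.div_eq_of_lt hb, zero_add]

theorem tot_eq (l : List (T3 × T3)) : tot k K P l = (l.map (wt k K P)).sum := by simp [tot, List.length_flatMap]

theorem tot_ts : tot k K P (ts k K) = ∑ t ∈ (ts k K).toFinset, wt k K P t := by rw [tot_eq, List.sum_toFinset _ ts_nd]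

theorem tot_bl : tot k K P ((bl g k K Q).map (·.2.1)) = ∑ p ∈ (bl g k K Q).toFinset, sz g k K Q P p := by
  have : (bl g k K Q).Nodup := ((ts_nd.product (List.nodup_range.product (List.nodup_range.product
    (List.nodup_range.product List.nodup_range)))).filter _).map fun _ _ e => (Prod.mk.inj e).2
  rw [tot_eq, List.sum_toFinset _ this, List.map_map]
  exact congrArg _ (List.map_congr_left fun p hp => by simp [sz, (mem_bl.1 hp).1])

theorem sum_ps : ∑ p ∈ (cst 0 :: cst 1 :: bl g k K Q).toFinset, sz g k K Q P p =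
    sz g k K Q P (cst 0) + (sz g k K Q P (cst 1) + tot k K P ((bl g k K Q).map (·.2.1))) := by
  rw [List.toFinset_cons, List.toFinset_cons, sum_insert (by simp [mem_bl, cst]), sum_insert (by simp [mem_bl, cst]), tot_bl]

theorem complete (h : Clique (g, k)) : ∃ S, Bis (red g k (2 ^ k) (k * g.n + 1) P) S ∧ S.card ≤ 2 ^ k := by
  obtain ⟨s, h1, h2⟩ := h
  obtain ⟨v, v1, v2⟩ : ∃ v : ℕ → ℕ, (∀ i < k, v i < g.n) ∧ ∀ i < k, ∀ j < k, i ≠ j → g.adjB (v i) (v j) := by
    let e := (s.equivFinOfCardEq h2).symm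
    refine ⟨fun i => if h : i < k then (e ⟨i, h⟩).1 else 0, fun i hi => by simp [hi], fun i hi j hj n => ?_⟩
    simp only [hi, hj, dif_pos, Gr.adjB_iff]
    exact h1 (e _).2 (e _).2 (by simpa [Subtype.val_inj])
  let L : ℕ → ℕ := fun a => ∑ l ∈ range k, if a.testBit l then v l else 0
  have l1 : ∀ a, L a < k * g.n + 1 := fun a => Nat.lt_succ_of_le ((sum_le_card_nsmul _ _ g.n fun l hl => by
    split_ifs; exacts [(v1 l (mem_range.1 hl)).le, Nat.zero_le _]).trans_eq (by simp))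
  have l2 : ∀ x ∈ prs k (2 ^ k), (L x.2.1).dist (L x.2.2) = v x.1 := fun x hx => by
    obtain ⟨a, b⟩ := mem_prs.1 hx
    simp only [L, ← add_sum_erase _ _ (mem_range.2 a.1)]
    rw [sum_congr (f := fun l => if x.2.2.testBit l then v l else 0) rfl fun l hl => by
      rw [b l (by simpa using (mem_erase.1 hl).2), decide_eq_false (mem_erase.1 hl).1, Bool.bne_false], b _ a.1]
    cases x.2.1.testBit x.1 <;> simp [Nat.dist]
  let φ : T3 × T3 → Pt := fun t => (2, t, L t.1.2.1, L t.1.2.2, L t.2.2.1, L t.2.2.2)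
  have sub : insert (cst 1) ((ts k (2 ^ k)).toFinset.image φ) ⊆ (cst 0 :: cst 1 :: bl g k (2 ^ k) (k * g.n + 1)).toFinset := by
    simp only [insert_subset_iff, image_subset_iff, List.mem_toFinset, List.mem_cons, true_or, or_true, true_and]
    refine fun t ht => .inr (.inr (mem_bl.2 ⟨rfl, ht, ⟨l1 _, l1 _, l1 _, l1 _⟩, ?_⟩))
    obtain ⟨a, b⟩ := mem_ts.1 ht
    simp only [ok, φ, l2 _ a, l2 _ b]
    split_ifs with e
    · simpa using v1 _ (mem_prs.1 a).1.1
    · exact v2 _ (mem_prs.1 a).1.1 _ (mem_prs.1 b).1.1 e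
  have cd : ((range (2 ^ k)).image fun a => a * (k * g.n + 1) + L a).card = 2 ^ k := by
    rw [card_image_of_injective _ fun a b e => ?_, card_range]
    simpa only [dv _ (l1 _)] using congrArg (· / (k * g.n + 1)) e
  refine (comp _ (sz g k (2 ^ k) (k * g.n + 1) P) (att (k * g.n + 1)) (cst 0) (by simp) _ sub (by simp [cst, φ])
    ((range (2 ^ k)).image fun a => a * (k * g.n + 1) + L a) ?_ ?_ ?_).imp fun S h => ⟨h.1, h.2.trans_le cd.le⟩
  · simp only [image_subset_iff, mem_range, sz, cst, if_true]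
    intro a ha
    have := l1 a
    have := Nat.mul_le_mul_right (k * g.n + 1) (show a + 1 ≤ _ from ha)
    rw [add_mul] at this; omega
  · simp only [forall_mem_insert, forall_mem_image, List.mem_toFinset, att, cst, φ, mem_ts, mem_prs]
    refine ⟨by simp, fun t ⟨a, b⟩ => ?_⟩
    simp only [if_true, List.forall_mem_cons, mem_image, mem_range]
    exact ⟨⟨_, a.1.2.1, rfl⟩, ⟨_, a.1.2.2, rfl⟩, ⟨_, b.1.2.1, rfl⟩, ⟨_, b.1.2.2, rfl⟩, by simp⟩
  · have := sum_sdiff (f := sz g k (2 ^ k) (k * g.n + 1) P) sub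
    rw [sum_ps] at this
    rw [cd]
    rw [sum_insert (by simp [cst, φ]), sum_image fun _ _ _ _ e => (Prod.mk.inj (Prod.mk.inj e).2).1] at this ⊢
    simp only [sz, cst, φ, ← tot_ts, if_true, OfNat.ofNat_ne_zero, OfNat.ofNat_ne_one, one_ne_zero, if_false] at this ⊢
    omega

theorem sound' (hP : P = ((2 * K) ^ 4 + 2) ^ (ts k K).length) {S}
    (hS : Bis (gr (cst 0 :: cst 1 :: bl g k K Q) (sz g k K Q P) (att Q) (cst 0)) S) (h : S.card ≤ 2 * K) :
    ∃ D : Finset ℕ, D.card ≤ S.card ∧ ∀ t ∈ ts k K, ∃ x, (2, t, x) ∈ bl g k K Q ∧ ∀ c ∈ att Q (2, t, x), c ∈ D := by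
  set B := (2 * K) ^ 4 + 2
  have w : ∀ t ∈ ts k K, wt k K P t = (2 * K + 1) * B ^ (ts k K).idxOf t := fun t ht => by
    rw [wt, hP, min_eq_left (Nat.pow_le_pow_right (by omega) (List.idxOf_lt_length_iff.2 ht).le)]
  obtain ⟨J, j1, j2, D, d1, d2, e1, e2⟩ := sound _ _ _ _ hS (by simp) (by
    generalize S.card = n at h
    simp only [List.forall_mem_cons, sz0, sz1]
    refine ⟨by omega, by omega, fun p hp => ?_⟩
    have := Nat.one_le_pow ((ts k K).idxOf p.2.1) B (by omega)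
    simp only [sz, (mem_bl.1 hp).1, w _ (mem_bl.1 hp).2.1, OfNat.ofNat_ne_zero, OfNat.ofNat_ne_one, if_false]
    nlinarith) (by
    simp only [List.forall_mem_cons, att, cst, sz, if_true]
    refine ⟨by simp, by simp, fun p hp => ?_⟩
    obtain ⟨a, b, c, -⟩ := mem_bl.1 hp
    have f : ∀ a < K, ∀ b < Q, a * Q + b < K * Q := fun a ha b hb => by
      have := Nat.mul_le_mul_right Q (show a + 1 ≤ _ from ha)
      rw [add_mul] at this; omega
    simp only [mem_ts, mem_prs] at b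
    have := f _ b.1.1.2.1 _ c.1; have := f _ b.1.1.2.2 _ c.2.1; have := f _ b.2.1.2.1 _ c.2.2.1
    have := f _ b.2.1.2.2 _ c.2.2.2
    simp [a]; omega)
  refine ⟨D, d1, ?_⟩
  have s1 := sum_sdiff (f := sz g k K Q P) j1
  rw [sum_ps] at s1
  have sb : J.erase (cst 1) ⊆ (bl g k K Q).toFinset := fun p hp => by
    have := j1 (mem_of_mem_erase hp)
    have := ne_of_mem_erase hp
    have : p ≠ cst 0 := fun e => j2 (e ▸ mem_of_mem_erase hp)
    simp_all
  have s2 := sum_le_sum_of_subset (f := sz g k K Q P) sb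
  rw [← tot_bl] at s2
  have z : cst 1 ∈ J := by
    by_contra n
    rw [erase_eq_of_notMem n] at s2
    rw [sz0, sz1] at s1
    omega
  let c : ℕ → ℕ := fun i => ((J.erase (cst 1)).filter fun p => (ts k K).idxOf p.2.1 = i).card
  have mb : ∀ p ∈ J.erase (cst 1), _ := fun p hp => mem_bl.1 (List.mem_toFinset.1 (sb hp))
  have s3 : ∑ p ∈ J.erase (cst 1), sz g k K Q P p = (2 * K + 1) * ∑ i ∈ range (ts k K).length, c i * B ^ i := by
    rw [← sum_fiberwise_of_maps_to (g := fun p => (ts k K).idxOf p.2.1) (t := range (ts k K).length)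
      fun p hp => mem_range.2 (List.idxOf_lt_length_iff.2 (mb p hp).2.1), mul_sum]
    refine sum_congr rfl fun i _ => ?_
    rw [mul_left_comm, ← smul_eq_mul, ← sum_const]
    refine sum_congr rfl fun p hp => ?_
    obtain ⟨a, b⟩ := mem_filter.1 hp
    simp [sz, (mb p a).1, w _ (mb p a).2.1, b]
  have s4 : tot k K P (ts k K) = (2 * K + 1) * ∑ i ∈ range (ts k K).length, B ^ i := by
    rw [tot_eq, List.map_congr_left w, List.sum_map_mul_left, ← Fin.sum_univ_fun_getElem, ← Fin.sum_univ_eq_sum_range]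
    simp [ts_nd.idxOf_getElem]
  rw [← add_sum_erase _ _ z, s3] at s1 e1 e2
  have s5 := digits (B := B) (by omega) (ts k K).length c (fun i _ => Nat.lt_succ_of_le (Nat.le_succ_of_le ?_)) (by
    simp only [sz0, sz1, s4] at s1 e1 e2
    generalize ∑ i ∈ range (ts k K).length, c i * B ^ i = X, ∑ i ∈ range (ts k K).length, B ^ i = Y at s1 e1 e2 ⊢
    rcases lt_trichotomy X Y with l | l | l
    · have := Nat.mul_le_mul_left (2 * K + 1) (show X + 1 ≤ Y from l); rw [mul_add] at this; omega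
    · exact l
    · have := Nat.mul_le_mul_left (2 * K + 1) (show Y + 1 ≤ X from l); rw [mul_add] at this; omega)
  · intro t ht
    obtain ⟨p, hp⟩ := card_pos.1 ((s5 _ (List.idxOf_lt_length_iff.2 ht)).ge.trans_lt' one_pos)
    obtain ⟨a, b⟩ := mem_filter.1 hp
    obtain rfl := (List.idxOf_inj (mb p a).2.1).1 b
    refine ⟨p.2.2, ?_⟩
    rw [← (mb p a).1]
    exact ⟨List.mem_toFinset.1 (sb a), d2 p (mem_of_mem_erase a)⟩
  · refine (card_le_card_of_injOn (t := D ×ˢ D ×ˢ D ×ˢ D) (fun p : Pt => (p.2.1.1.2.1 * Q + p.2.2.1, p.2.1.1.2.2 * Q + p.2.2.2.1,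
      p.2.1.2.2.1 * Q + p.2.2.2.2.1, p.2.1.2.2.2 * Q + p.2.2.2.2.2)) (fun p hp => ?_) fun p hp q hq e => ?_).trans ?_
    · have a := (mem_filter.1 hp).1
      simpa [att, (mb p a).1] using d2 p (mem_of_mem_erase a)
    · obtain ⟨a, b⟩ := mem_filter.1 hp
      obtain ⟨a', b'⟩ := mem_filter.1 hq
      have e2 := (List.idxOf_inj (mb p a).2.1).1 (b.trans b'.symm)
      simp only [e2, Prod.mk.injEq, Nat.add_left_cancel_iff] at e
      exact Prod.ext ((mb p a).1.trans (mb q a').1.symm) (Prod.ext e2 (by ext <;> tauto))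
    · simp only [card_product]
      exact (Nat.pow_le_pow_left (d1.trans h) 4).trans_eq' (by ring)

theorem extract {D : Finset ℕ} (hD : 2 * D.card < 3 * 2 ^ k)
    (h : ∀ t ∈ ts k (2 ^ k), ∃ x, (2, t, x) ∈ bl g k (2 ^ k) Q ∧ ∀ c ∈ att Q (2, t, x), c ∈ D) : Clique (g, k) := by
  rcases k.eq_zero_or_pos with rfl | k0
  · exact ⟨∅, by simp⟩
  have pr : ∀ i < k, ∀ a < 2 ^ k, (i, a, a ^^^ 2 ^ i) ∈ prs k (2 ^ k) := fun i hi a ha => mem_prs.2
    ⟨⟨hi, ha, Nat.xor_lt_two_pow ha (Nat.pow_lt_pow_right one_lt_two hi)⟩, fun l _ => by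
      simp [Nat.testBit_two_pow, eq_comm]⟩
  let F : ℕ → Finset ℕ := fun a => D.filter fun c => c / Q = a
  let bad := (range (2 ^ k)).filter fun a => 1 < (F a).card
  have b1 : 2 ^ k + bad.card ≤ D.card := by
    refine le_trans ?_ ((sum_card_fiberwise_eq_card_filter D (range (2 ^ k)) (· / Q)).trans_le (card_filter_le _ _))
    refine le_trans (le_of_eq ?_) (sum_le_sum (f := fun a => 1 + if 1 < (F a).card then 1 else 0) fun a ha => ?_)
    · simp [sum_add_distrib, bad]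
    obtain ⟨x, h1, h2⟩ := h (_, _) (mem_ts.2 ⟨pr 0 k0 a (mem_range.1 ha), pr 0 k0 a (mem_range.1 ha)⟩)
    have : 0 < (F a).card := card_pos.2 ⟨_, mem_filter.2 ⟨h2 _ (by simp [att]), dv _ (mem_bl.1 h1).2.2.1.1⟩⟩
    change _ ≤ (F a).card
    split_ifs <;> omega
  have b2 : ∀ i : Fin k, ∃ a < 2 ^ k, (F a).card ≤ 1 ∧ (F (a ^^^ 2 ^ i.1)).card ≤ 1 := fun i => by
    by_contra n
    have := (card_le_card (s := range (2 ^ k)) (t := bad ∪ bad.image (· ^^^ 2 ^ i.1)) fun a ha => by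
      have := (mem_prs.1 (pr i i.2 a (mem_range.1 ha))).1.2.2
      simp only [bad, mem_union, mem_filter, mem_image, ha, true_and, mem_range]
      by_contra z
      push Not at n z
      exact z.2 _ ⟨this, n a (mem_range.1 ha) z.1⟩ (by simp)).trans
      ((card_union_le _ _).trans (Nat.add_le_add_left card_image_le _))
    rw [card_range] at this
    omega
  choose a a1 a2 a3 using b2
  choose x x1 x2 using fun i j : Fin k => h (_, _) (mem_ts.2 ⟨pr i i.2 _ (a1 i), pr j j.2 _ (a1 j)⟩)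
  simp only [mem_bl, att, if_true, List.forall_mem_cons, ok, Fin.val_inj] at x1 x2
  have u : ∀ {b y z}, (F b).card ≤ 1 → y < Q → z < Q → b * Q + y ∈ D → b * Q + z ∈ D → y = z := fun h1 h2 h3 h4 h5 => by
    simpa using card_le_one.1 h1 _ (mem_filter.2 ⟨h4, dv _ h2⟩) _ (mem_filter.2 ⟨h5, dv _ h3⟩)
  let w : Fin k → Fin g.n := fun i => ⟨(x i i).1.dist (x i i).2.1, by simpa using (x1 i i).2.2.2⟩
  have hw : ∀ i j, i ≠ j → g.G.Adj (w i) (w j) := fun i j n => by
    have := (x1 i j).2.2.2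
    rwa [if_neg n, u (a2 i) (x1 i j).2.2.1.1 (x1 i i).2.2.1.1 (x2 i j).1 (x2 i i).1,
      u (a3 i) (x1 i j).2.2.1.2.1 (x1 i i).2.2.1.2.1 (x2 i j).2.1 (x2 i i).2.1,
      u (a2 j) (x1 i j).2.2.1.2.2.1 (x1 j j).2.2.1.1 (x2 i j).2.2.1 (x2 j j).1,
      u (a3 j) (x1 i j).2.2.1.2.2.2 (x1 j j).2.2.1.2.1 (x2 i j).2.2.2.1 (x2 j j).2.1, Gr.adjB_iff g (w i) (w j)] at this
  refine ⟨univ.image w, ?_, ?_⟩
  · simp only [coe_image, coe_univ, Set.image_univ]
    rintro _ ⟨i, rfl⟩ _ ⟨j, rfl⟩ n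
    exact hw i j (mt (congrArg w) n)
  · rw [card_image_of_injective _ fun i j e => by_contra fun n => (hw i j n).ne e]; simp

end Pool.Agent.H.MP_8c536d_lc
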