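import Pool.Agent.Lib.lead.CXGraph
import Pool.Agent.Lib.lead.CXRat
import Pool.Agent.Lib.helper26.CXFptDefs

set_option autoImplicit false

namespace Pool.Agent.H.MP_8c536d_lc

open Pool.Agent.Lib.CX

/-- `S` is a vertex bisector -/
def Bis (g : Gr) (S : Finset (Fin g.n)) : Prop :=
  ∃ A B : Finset (Fin g.n), Disjoint A B ∧ A ∪ B = Sᶜ ∧ A.card ≤ B.card + 1 ∧ B.card ≤ A.card + 1 ∧
    ∀ u ∈ A, ∀ v ∈ B, ¬ g.G.Adj u v

/-- a correct answer on `(G, k)` with accuracy `ε`: a listed bisector with at most `(1 + ε) k` vertices, or `none` if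
there is no bisector with at most `k` vertices -/
def Ans (a : Gr × ℕ) (ε : ℚ) : Option (List ℕ) → Prop
  | some l => Bis a.1 {v | v.1 ∈ l} ∧ ((({v | v.1 ∈ l} : Finset (Fin a.1.n)).card : ℚ) ≤ (1 + ε) * a.2)
  | none => ∀ S, Bis a.1 S → a.2 < S.card

/-- an fpt `(1 + ε)`-approximation for the fixed `ε` -/
def Approx (ε : ℚ) : Prop :=
  ∃ (p : Prog) (f : ℕ → ℕ) (q : Polynomial ℕ), Computable f ∧ ∀ a : Gr × ℕ, ∃ o n m,
    n ≤ f a.2 * q.eval (size a) ∧ Exec p (io (enc a)) (io (enc o)) n m ∧ Ans a ε o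

/-- an fpt approximation scheme -/
def Scheme : Prop :=
  ∃ (p : Prog) (f : ℕ × ℚ → ℕ) (q : Polynomial ℕ), Computable f ∧ ∀ (a : Gr × ℕ) (ε : ℚ), 0 < ε → ∃ o n m,
    n ≤ f (a.2, ε) * q.eval (size a) ∧ Exec p (io (enc (a, ε))) (io (enc o)) n m ∧ Ans a ε o

/-- the graph has a clique with `k` vertices -/
def Clique (a : Gr × ℕ) : Prop := ∃ s : Finset (Fin a.1.n), a.1.G.IsNClique a.2 s

end Pool.Agent.H.MP_8c536d_lc
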